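import Pool.Agent.Helper95.LN.Stmts

/-! row PT1 of sheet LN -/

set_option autoImplicit false

namespace Pool.Agent.Helper42.LN

open MeasureTheory Filter Pool.Agent.Helper95.PW Pool.Agent.Helper95.LN

theorem p1_nr (v : R3) : nr v = ‖(WithLp.toLp 2 v : EuclideanSpace ℝ (Fin 3))‖ := by
  rw [EuclideanSpace.norm_eq, nr]
  congr 1
  simp [Fin.sum_univ_three]

theorem p1_tri (u v : R3) : nr u ≤ nr v + nr (u - v) := by
  rw [p1_nr, p1_nr, p1_nr]
  have h : (WithLp.toLp 2 u : EuclideanSpace ℝ (Fin 3)) =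
      WithLp.toLp 2 v + WithLp.toLp 2 (u - v) := by
    rw [← WithLp.toLp_add]
    congr 1
    abel
  rw [h]
  exact norm_add_le _ _

theorem p1_symm (u v : R3) : nr (u - v) = nr (v - u) := by
  rw [p1_nr, p1_nr]
  have h : (WithLp.toLp 2 (u - v) : EuclideanSpace ℝ (Fin 3)) = - WithLp.toLp 2 (v - u) := by
    rw [← WithLp.toLp_neg]
    congr 1
    abel
  rw [h, norm_neg]

theorem p1_pd (i : Fin 3) (g : R3 → ℝ) (p y : R3) :
    pd i (fun w => g (w - p)) y = pd i g (y - p) := by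
  unfold pd
  rw [fderiv_comp_sub]

theorem p1_lap (g : R3 → ℝ) (p y : R3) : lap (fun w => g (w - p)) y = lap g (y - p) := by
  unfold lap
  refine Finset.sum_congr rfl fun i _ => ?_
  have h : pd i (fun w => g (w - p)) = fun w => pd i g (w - p) := by
    funext w
    exact p1_pd i g p w
  rw [h]
  exact p1_pd i (pd i g) p y

theorem PT1 (hMVP : ST_MVP) (hPHA : ST_PHA) (hPHB : ST_PHB) (hPHC : ST_PHC) : ST_PT1 := by
  intro a p X0 ha hd
  obtain ⟨hsm, hfar, -, -, -⟩ := hPHA a ha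
  obtain ⟨-, -, -, hC⟩ := hPHC
  obtain ⟨-, -, hz, -, -, -⟩ := hC a ha
  have hlap := (hPHB a ha).1
  have hge : ∀ w, nr (w - X0) ≤ a → a ≤ nr (w - p) := by
    intro w hw
    have h1 := p1_tri (p - X0) (w - X0)
    have h2 : p - X0 - (w - X0) = p - w := by abel
    rw [h2, p1_symm p w] at h1
    linarith
  have hh : ContDiff ℝ (⊤ : ℕ∞) (fun w : R3 => ph a (w - p)) :=
    hsm.comp (contDiff_id.sub contDiff_const)
  have hm := (hMVP (fun w => ph a (w - p)) X0 a hh ha).1 (by
    intro w hw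
    rw [p1_lap, hlap, hz _ (hge w hw), neg_zero])
  have h0 : ph a (X0 - p) = 1 / nr (p - X0) := by
    rw [hfar _ (by rw [p1_symm]; linarith), p1_symm]
  rw [h0] at hm
  rw [show kap / nr (p - X0) = kap * (1 / nr (p - X0)) by ring, ← hm]
  refine integral_congr_ae (Filter.Eventually.of_forall fun w => ?_)
  show et a (w - X0) / nr (w - p) = ph a (w - p) * et a (w - X0)
  by_cases hw : nr (w - X0) ≤ a
  · rw [hfar _ (hge w hw)]
    ring
  · rw [hz _ (not_le.mp hw).le]
    ring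

end Pool.Agent.Helper42.LN
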